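import Pool.Agent.Y223.G.Stm6
import Pool.Agent.Y515.G.GVal

/-!
# Project G: every valuation ring of the field of invariants of a finite group contains a chart
-/

set_option autoImplicit false

namespace Pool.Agent.Y258.G

open Pool.Agent.Y223.G
open Pool.Agent.Y515.G (ext_val int_mem)

section

variable {k K G Ω : Type} [CommRing k] [Field K] [Group G] [MulAction G Ω] [Algebra k K]
  {ρ : G →* (K ≃ₐ[k] K)} {m : ℕ} {z : Ω → Fin (m + 1) → K}

/-- The action on the monomials. -/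
lemma rho_MN (heqv : ∀ g ω j, ρ g (z ω j) = z (g • ω) j) (g : G) (ω : Ω) {d : ℕ} {x : K}
    (hx : x ∈ MN (z ω) d) : ρ g x ∈ MN (z (g • ω)) d := by
  obtain ⟨a, ha, rfl⟩ := hx
  refine ⟨a, ha, ?_⟩
  rw [map_prod]
  exact Finset.prod_congr rfl fun j _ => by rw [map_pow, heqv]

/-- Every monomial of the conjugate is a conjugate of a monomial. -/
lemma MN_conj (heqv : ∀ g ω j, ρ g (z ω j) = z (g • ω) j) (g : G) (ω : Ω) {d : ℕ} {x : K}
    (hx : x ∈ MN (z (g • ω)) d) : ∃ y ∈ MN (z ω) d, x = ρ g y := by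
  obtain ⟨a, ha, rfl⟩ := hx
  refine ⟨_, ⟨a, ha, rfl⟩, ?_⟩
  rw [map_prod]
  exact Finset.prod_congr rfl fun j _ => by rw [map_pow, heqv]

/-- The action on the forms. -/
lemma rho_FS (heqv : ∀ g ω j, ρ g (z ω j) = z (g • ω) j) (g : G) (ω : Ω) {d : ℕ} {x : K}
    (hx : x ∈ FS k (z ω) d) : ρ g x ∈ FS k (z (g • ω)) d := by
  unfold FS at hx
  induction hx using Submodule.span_induction with
  | mem x hx => exact Submodule.subset_span (rho_MN heqv g ω hx)
  | zero => rw [map_zero]; exact Submodule.zero_mem _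
  | add x y _ _ hx hy => rw [map_add]; exact Submodule.add_mem _ hx hy
  | smul c x _ hx => rw [map_smul]; exact Submodule.smul_mem _ _ hx

/-- The stabiliser fixes the forms. -/
lemma rho_fix (heqv : ∀ g ω j, ρ g (z ω j) = z (g • ω) j) (g : G) (ω : Ω) (hg : g • ω = ω)
    {d : ℕ} {x : K} (hx : x ∈ FS k (z ω) d) : ρ g x = x := by
  unfold FS at hx
  induction hx using Submodule.span_induction with
  | mem x hx =>
    obtain ⟨a, ha, rfl⟩ := hx
    rw [map_prod]
    exact Finset.prod_congr rfl fun j _ => by rw [map_pow, heqv, hg]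
  | zero => rw [map_zero]
  | add x y _ _ hx hy => rw [map_add, hx, hy]
  | smul c x _ hx => rw [map_smul, hx]

lemma rho_eq (heqv : ∀ g ω j, ρ g (z ω j) = z (g • ω) j) (g h : G) (ω : Ω) (hg : g • ω = h • ω)
    {d : ℕ} {x : K} (hx : x ∈ FS k (z ω) d) : ρ g x = ρ h x := by
  have h1 : (h⁻¹ * g) • ω = ω := by rw [mul_smul, hg, inv_smul_smul]
  have h2 := rho_fix heqv _ _ h1 hx
  have h3 : ρ g x = ρ h (ρ (h⁻¹ * g) x) := by
    rw [← AlgEquiv.mul_apply, ← map_mul, mul_inv_cancel_left]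
  rw [h3, h2]

end

theorem t_GVAG : S_EXF → S_GVAG := by
  intro hEXF k O M Y K G Ω _ _ _ _ _ _ _ _ _ _ _ _ _ _ _ _ _ _ _ ι ρ T m z H
  obtain ⟨ω₀⟩ := ‹Nonempty Ω›
  obtain ⟨e⟩ : Nonempty (Fin (Nat.card G - 1 + 1) ≃ G) := by
    have h1 : 0 < Nat.card G := Nat.card_pos
    have h2 : Nat.card G - 1 + 1 = Nat.card G := by omega
    rw [h2]
    exact ⟨(Finite.equivFin G).symm⟩
  obtain ⟨d, P, hd, hfin, hFS, hEV⟩ := hEXF k K m (z ω₀) (H.z0 ω₀) (Nat.card G - 1)
  choose γ hγ using fun ω => H.tr ω₀ ω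
  let Fam : K → Ω → K := fun F ω => ρ (γ ω) F
  refine ⟨d, Fam '' {F ∈ P | F ≠ 0}, hd, (hfin.subset (Set.sep_subset _ _)).image _, ?_, ?_⟩
  · rintro _ ⟨F, ⟨hF, hF0⟩, rfl⟩
    refine ⟨fun ω => ?_, fun ω => ?_, fun g ω => ?_⟩
    · have h1 := rho_FS H.eqv (γ ω) ω₀ (hFS F hF)
      rw [hγ] at h1
      exact h1
    · exact fun h => hF0 ((map_eq_zero _).1 h)
    · change ρ g (ρ (γ ω) F) = ρ (γ (g • ω)) F
      rw [← AlgEquiv.mul_apply, ← map_mul]
      exact rho_eq H.eqv _ _ ω₀ (by rw [mul_smul, hγ, hγ]) (hFS F hF)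
  intro V hVk
  obtain ⟨V', hV'⟩ := ext_val (ι : Y →+* K) V
  have hkV : ∀ c : k, algebraMap k K c ∈ V' := fun c => by
    have h1 : algebraMap k K c = (ι : Y →+* K) (algebraMap k Y c) := (ι.commutes c).symm
    rw [h1]
    exact (hV' _).2 (hVk c)
  have hOV : ∀ o : O, algebraMap O K o ∈ V' := fun o => by
    have := H.fin
    exact int_mem V' hkV ((Algebra.IsIntegral.isIntegral (R := k) o).algebraMap)
  obtain ⟨F, hF, hF0, hx⟩ := hEV (fun i => V'.comap ((ρ (e i) : K ≃ₐ[k] K) : K →+* K))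
    (fun i c => by
      rw [ValuationSubring.mem_comap]
      change ρ (e i) (algebraMap k K c) ∈ V'
      rw [(ρ (e i)).commutes]
      exact hkV c)
  refine ⟨Fam F, ⟨F, ⟨hF, hF0⟩, rfl⟩, ?_⟩
  intro s hs hsV N 𝔔 p l τ x hmx
  have hs0 : algebraMap k K s ≠ 0 := fun h => hs (H.injk (by rw [h, map_zero]))
  have hsV' : (algebraMap k K s)⁻¹ ∈ V' := by
    have h1 : (algebraMap k K s)⁻¹ = (ι : Y →+* K) ((algebraMap k Y s)⁻¹) := by
      rw [map_inv₀]
      exact congrArg _ (ι.commutes s).symm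
    rw [h1]
    exact (hV' _).2 hsV
  -- the ratios of the monomials are in all the conjugates of the valuation ring
  have hgen : ∀ (g : G), ∀ y ∈ MN (z ω₀) d, ρ g (y / F) ∈ V' := by
    intro g y hy
    have h2 := hx (e.symm g) y hy
    rw [ValuationSubring.mem_comap, e.apply_symm_apply] at h2
    exact h2
  have hOL : ∀ (g : G) (r : OL O (K := K) s), ρ g (r : K) ∈ V' := by
    rintro g ⟨r, n, y, h⟩
    change ρ g r ∈ V'
    have h1 := congrArg (ρ g) h
    rw [← map_pow, map_mul, (ρ g).commutes, H.com, map_pow] at h1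
    have h2 : ρ g r = ((algebraMap k K s)⁻¹) ^ n * algebraMap O K (T g y) := by
      rw [← h1, ← mul_assoc, ← mul_pow, inv_mul_cancel₀ hs0, one_pow, one_mul]
    rw [h2]
    exact V'.mul_mem _ _ (pow_mem hsV' n) (hOV _)
  let W : Subalgebra (OL O (K := K) s) K :=
    { carrier := {x | ∀ g : G, ρ g x ∈ V'}
      mul_mem' := by
        intro a b ha hb g
        rw [map_mul]
        exact V'.mul_mem _ _ (ha g) (hb g)
      add_mem' := by
        intro a b ha hb g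
        rw [map_add]
        exact V'.add_mem _ _ (ha g) (hb g)
      algebraMap_mem' := fun r g => hOL g r }
  have hCW : CG (OL O (K := K) s) z d (Fam F) ≤ W := by
    unfold CG
    refine iSup_le fun ω => ?_
    unfold AF
    rw [Algebra.adjoin_le_iff]
    rintro y ⟨x', hx', rfl⟩ g
    have h0 : x' ∈ MN (z (γ ω • ω₀)) d := by rw [hγ]; exact hx'
    obtain ⟨y', hy', rfl⟩ := MN_conj H.eqv (γ ω) ω₀ h0
    change ρ g (ρ (γ ω) y' / ρ (γ ω) F) ∈ V'
    rw [← map_div₀, ← AlgEquiv.mul_apply, ← map_mul]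
    exact hgen _ _ hy'
  have h1 : hm 0 (ι x) ∈ GRG O ρ z s 𝔔 p l τ d (Fam F) := by
    have h2 : AddMonoidAlgebra.mapAlgHom (R := k) ℤ ι (hm 0 x) ∈ GRG O ρ z s 𝔔 p l τ d (Fam F) :=
      hmx
    have h3 : AddMonoidAlgebra.mapAlgHom (R := k) ℤ ι (hm 0 x) = hm 0 (ι x) :=
      AddMonoidAlgebra.mapAlgHom_single _ _ _
    rwa [h3] at h2
  have h2 : ι x ∈ CG (OL O (K := K) s) z d (Fam F) := by
    have h3 : hm 0 (ι x) ∈ RR k 1 1 (⊤ : Ideal (OL O (K := K) s)) 0
        (CG (OL O (K := K) s) z d (Fam F)) := h1.1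
    exact RR_mem_C (fun c hc => hc) h3
  have h3 := hCW h2 1
  rw [map_one] at h3
  exact (hV' x).1 h3

end Pool.Agent.Y258.G
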